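import Mathlib
import Pool.Agent.R248.FA.Collar

/-!
# Orientable fillings of the circle, of any genus: the area near the boundary

Take a compact oriented Riemannian surface, of any genus, whose boundary is the circle of length
`2π`, without shortcuts between the points of fourteen pairs of antipodal points (the pairs of
opposite points of a regular polygon with 28 vertices). Then the points at distance at most `π / 2`
from the boundary have area at least `1.901 π`. (In the hemisphere these are all points, and their
area is `2π`.)

The `1`-Lipschitz extensions of the distance functions of the circle used in calibrations can be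
made equal to `π / 2` at distance at least `π / 2` from the boundary, without losing the symmetry;
so the calibration of the starting file `AreaAtLeast1901Pi` (fourteen functions clamped to lattice
intervals) only sees the collar.

`areaOf` is defined in `Pool.Agent.R248.FA.Defs`, the surfaces in
`Pool.Agent.H115R3.Filling.Defs`.
-/

set_option autoImplicit false

open Real MeasureTheory Set

namespace Pool.Agent.Results.MP_ecf18f_gt.CollarArea

open Pool.Agent.H115R3.Filling Pool.Agent.W664.Fill Pool.Agent.R248.FA

/-- The point `i π / 14` of the circle of length `2π`. -/
noncomputable def point (i : ℕ) : AddCircle (2 * π) :=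
  (((i : ℝ) * (π / (14 : ℕ)) : ℝ) : AddCircle (2 * π))

/-- The distance functions on the circle of the fourteen points `point i`, `i < 14`, are
`1`-Lipschitz with respect to the distance of the surface, that is, they have extensions to the
surface that are `1`-Lipschitz. -/
def FourteenPoints {M : Type} [MetricSpace M] (S : OrientedSurface M) : Prop :=
  ∀ i < 14, ∀ s t : AddCircle (2 * π),
    |dist (point i) s - dist (point i) t| ≤ dist (S.boundary s) (S.boundary t)

/-- The points of the `k`-th square at distance at most `π / 2` from the boundary of the
surface. -/
def near {M : Type} [MetricSpace M] (S : OrientedSurface M) (k : Fin S.faces) : Set (ℝ × ℝ) :=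
  {p | Metric.infDist (S.chart k p) (Set.range S.boundary) ≤ π / 2}

/-- The area near the boundary is at least `1.901 π`. The hypothesis holds if there are no
shortcuts; and if arcs of the boundary are not longer than in the circle and there are no shortcuts
between `point i` and its antipode, for `i < 14`. -/
theorem result {M : Type} [MetricSpace M] (S : OrientedSurface M) :
    (FourteenPoints S → 1.901 * π ≤ areaOf S (near S)) ∧
    (S.NoShortcut → FourteenPoints S) ∧
    ((∀ s t : AddCircle (2 * π), dist (S.boundary s) (S.boundary t) ≤ dist s t) →
      (∀ i < 14, π ≤ dist (S.boundary (point i)) (S.boundary (point i + (π : ℝ)))) →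
      FourteenPoints S) :=
  ⟨collar_area S, fun h => lipPoints_of_noShortcut h 14, fun h1 h2 => lipPoints_of_pairs h1 h2⟩

end Pool.Agent.Results.MP_ecf18f_gt.CollarArea
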