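import Mathlib
import Pool.Agent.R248.FA.Turn

/-!
# Orientable fillings of the circle, of any genus: area and the turning of the gradients

The definitions `dens`, `GradPolar`, `Turns`, `Extends`, `inChart`, `areaOf`, `OrderedOff` are in
`Pool.Agent.R248.FA.Defs`; the surfaces are those of `Pool.Agent.H115R3.Filling.Defs`.

Take `N ≥ 2` equally spaced points of the boundary circle of an orientable filling, of any genus,
and `1`-Lipschitz functions `u 0, …, u N = u 0` on the surface which extend the distance functions
of these points on the circle (for instance the distance functions of the surface, if it fills the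
circle isometrically; such functions exist whenever the circle has no shortcuts). Then

* the integral of `du₀ ∧ du₁ + du₁ ∧ du₂ + … + du_{N-1} ∧ du₀` is exactly `4 π² (1 - 2 / N)`;
* the area, where each point `x` is counted with the smaller of `N / (2π)` and the number `w x` of
  counterclockwise turns made by the gradients of `u 0, u 1, …, u N` at `x`, is at least
  `2 π (1 - 2 / N)`;
* if the gradients are in cyclic order (`w = 1`) outside of a set `B`, then
  `2 π (1 - 2 / N) ≤ area + (N / (2π) - 1) area B`, and, if the area is less than `2π` and `N` is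
  the next integer after `8 π / (2π - area)`, then `(2π - area)² ≤ 8 area B`;
* if the gradients are in cyclic order almost everywhere, for arbitrarily large `N`, then the area
  is at least `2π`.
-/

set_option autoImplicit false

open Finset Real MeasureTheory Filter Topology Set

namespace Pool.Agent.Results.MP_ecf18f_gt.GradientTurns

open Pool.Agent.H115R3.Filling Pool.Agent.W664.Fill Pool.Agent.R248.FA

theorem result :
    -- the families of extensions exist
    (∀ (M : Type) [MetricSpace M] (S : OrientedSurface M), S.NoShortcut → ∀ N : ℕ, 0 < N →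
      ∃ u, Extends S N u) ∧
    -- the distance functions of an isometric filling form such a family
    (∀ (M : Type) [MetricSpace M] (S : OrientedSurface M),
      (∀ x y, dist (S.boundary x) (S.boundary y) = dist x y) → ∀ N : ℕ, 0 < N →
      Extends S N (fun j x => dist (S.boundary ((2 * π * j / N : ℝ) : AddCircle (2 * π))) x)) ∧
    (∀ (M : Type) [MetricSpace M] (S : OrientedSurface M) (N : ℕ) (u : ℕ → M → ℝ), 2 ≤ N →
      Extends S N u →
      -- the identity
      (∑ k, ∫ x in Sq, ∑ j ∈ range N,
          (fderiv ℝ (inChart S u k j) x (1, 0) * fderiv ℝ (inChart S u k (j + 1)) x (0, 1) -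
            fderiv ℝ (inChart S u k j) x (0, 1) * fderiv ℝ (inChart S u k (j + 1)) x (1, 0)) =
        4 * π ^ 2 * (1 - 2 / N)) ∧
      -- the area counted with the number of turns
      (∀ w : Fin S.faces → ℝ × ℝ → ℝ,
        (∀ k, IntegrableOn (fun x => min (w k x) (N / (2 * π)) * dens (S.metric k) x) Sq) →
        (∀ k, ∀ᵐ x ∂(volume.restrict Sq), Turns (S.metric k) N (inChart S u k) x (w k x)) →
        2 * π * (1 - 2 / N) ≤
          ∑ k, ∫ x in Sq, min (w k x) (N / (2 * π)) * dens (S.metric k) x) ∧
      -- the area of the set where the gradients are not in cyclic order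
      (∀ B : Fin S.faces → Set (ℝ × ℝ), (∀ k, MeasurableSet (B k)) → OrderedOff S N u B →
        2 * π * (1 - 2 / N) ≤ S.area + (N / (2 * π) - 1) * areaOf S B ∧
        (S.area < 2 * π → 8 * π / (2 * π - S.area) ≤ N →
          (N : ℝ) ≤ 8 * π / (2 * π - S.area) + 1 →
          (2 * π - S.area) ^ 2 ≤ 8 * areaOf S B))) ∧
    -- the area is at least `2π` if the gradients are in cyclic order
    (∀ (M : Type) [MetricSpace M] (S : OrientedSurface M),
      (∀ N₀ : ℕ, ∃ N ≥ N₀, ∃ u, Extends S N u ∧ OrderedOff S N u (fun _ => ∅)) →
      2 * π ≤ S.area) := by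
  refine ⟨?_, ?_, ?_, ?_⟩
  · intro M _ S hS N hN
    exact ⟨_, exists_extends hS hN⟩
  · intro M _ S hS N hN
    exact dist_extends hS hN
  · intro M _ S N u hN h
    refine ⟨h.identity hN, fun w hw ht => h.weighted hN w hw ht, fun B hB ho => ?_⟩
    have h1 := h.defect hN B hB ho
    exact ⟨h1, fun hA h2 h3 => defect_sq hA h2 h3 (areaOf_nonneg B) h1⟩
  · intro M _ S hS
    have hpi := Real.pi_pos
    by_contra hA
    push Not at hA
    set ε := 2 * π - S.area with hε
    have hε0 : 0 < ε := by rw [hε]; linarith
    obtain ⟨m, hm⟩ := exists_nat_gt (4 * π / ε)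
    obtain ⟨N, hN, u, hu, ho⟩ := hS (m + 2)
    have hN2 : 2 ≤ N := by omega
    have hNm : (m : ℝ) ≤ N := by
      have : m ≤ N := by omega
      exact_mod_cast this
    have h1 := hu.defect hN2 (fun _ => ∅) (fun _ => MeasurableSet.empty) ho
    have h0 : areaOf S (fun _ => ∅) = 0 := by
      unfold areaOf
      simp
    rw [h0, mul_zero, add_zero] at h1
    have hN0 : (0 : ℝ) < N := by positivity
    have h5 : 2 * π * (1 - 2 / (N : ℝ)) = 2 * π - 4 * π / N := by ring
    rw [h5] at h1
    have h6 : 4 * π / N < ε := by
      rw [div_lt_iff₀ hN0]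
      rw [div_lt_iff₀ hε0] at hm
      nlinarith
    linarith

end Pool.Agent.Results.MP_ecf18f_gt.GradientTurns
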