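import Mathlib
import Pool.Agent.R248.FA.Weight

/-!
# Orientable fillings of the circle, of any genus: the weighted area

Let a compact oriented Riemannian surface, of any genus, fill the circle of length `2π` without
shortcuts (it suffices: between the points of fourteen pairs of antipodal points). For a point `x`
of the surface let `m x ≥ π` be the least sum of the distances of `x` to two points of these pairs;
so `m x = π` means that `x` is on a shortest path between antipodal boundary points, as all points
of the hemisphere are. Then the integral of `(π / m)²` is at least `1.901 π`; the rest
`1 - (π / m)²` of the area comes in addition.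

The functions `π u / (u + v)`, where `u`, `v` are the distances to antipodal boundary points, have
the same boundary values and symmetries as `(u - v + π) / 2`, and gradients of length at most
`π / (u + v) ≤ π / m`.
-/

set_option autoImplicit false

open Real MeasureTheory Set

namespace Pool.Agent.Results.MP_ecf18f_gt.WeightedArea

open Pool.Agent.H115R3.Filling Pool.Agent.W664.Fill Pool.Agent.R248.FA

/-- The point `i π / 14` of the circle of length `2π`. -/
noncomputable def point (i : ℕ) : AddCircle (2 * π) :=
  (((i : ℝ) * (π / (14 : ℕ)) : ℝ) : AddCircle (2 * π))

/-- `m x`: the least sum of the distances of `x` to the boundary points `i π / 14` and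
`i π / 14 + π`, `i < 14`. -/
noncomputable def detour {M : Type} [MetricSpace M] (S : OrientedSurface M) (x : M) : ℝ :=
  ⨅ i : Fin 14, (dist (S.boundary (point i)) x + dist (S.boundary (point i + (π : ℝ))) x)

theorem result {M : Type} [MetricSpace M] (S : OrientedSurface M)
    -- arcs of the boundary are not longer than in the circle
    (hlen : ∀ s t : AddCircle (2 * π), dist (S.boundary s) (S.boundary t) ≤ dist s t)
    -- there are no shortcuts between fourteen pairs of antipodal points
    (hanti : ∀ i < 14, π ≤ dist (S.boundary (point i)) (S.boundary (point i + (π : ℝ)))) :
    (∀ x, π ≤ detour S x) ∧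
    1.901 * π ≤ ∑ k, ∫ x in Sq, (π / detour S (S.chart k x)) ^ 2 *
      √((S.metric k).E x * (S.metric k).G x - (S.metric k).F x ^ 2) := by
  have hP : Pairs S 14 := ⟨hlen, hanti⟩
  have e : ∀ x, detour S x = mm S 14 x := by
    intro x
    unfold detour mm Du
    congr 1
    funext i
    rw [pt_add (by norm_num)]
    rfl
  refine ⟨fun x => ?_, ?_⟩
  · rw [e]
    exact le_mm hP (by norm_num) x
  · have h := weight_area S hP
    unfold wdens dens at h
    simp only [e]
    exact h

end Pool.Agent.Results.MP_ecf18f_gt.WeightedArea
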